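import Mathlib

set_option autoImplicit false

namespace Pool.Agent.Results.MP_1f00fa_co.Counter

open SimpleGraph

/-- `S` is a monophonic position set of `G`: no three distinct vertices of `S` lie on a common
induced path (an induced path on `k` vertices is a graph embedding `pathGraph k ↪g G`). -/
def IsMP {V : Type} (G : SimpleGraph V) (S : Finset V) : Prop :=
  ∀ (k : ℕ) (f : pathGraph k ↪g G) (i j l : Fin k), i ≠ j → i ≠ l → j ≠ l →
    ¬ (f i ∈ S ∧ f j ∈ S ∧ f l ∈ S)

/-- The monophonic position number: the largest size of a monophonic position set. -/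
noncomputable def mp {V : Type} (G : SimpleGraph V) : ℕ :=
  sSup {m : ℕ | ∃ S : Finset V, IsMP G S ∧ S.card = m}

def g (b1 b2 b3 b4 b5 b6 b7 : Bool) (x : ZMod 15) : Bool :=
  [false, b1, b2, b3, b4, b5, b6, b7, b7, b6, b5, b4, b3, b2, b1].getD x.val false

lemma key : ∀ b1 b2 b3 b4 b5 b6 b7 : Bool,
    (∀ x y : ZMod 15, g b1 b2 b3 b4 b5 b6 b7 x = true → g b1 b2 b3 b4 b5 b6 b7 y = true →
      g b1 b2 b3 b4 b5 b6 b7 (x + y) = false) →
    (∀ z : ZMod 15, z ≠ 0 → g b1 b2 b3 b4 b5 b6 b7 z = false →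
      ∃ x : ZMod 15, g b1 b2 b3 b4 b5 b6 b7 x = true ∧ g b1 b2 b3 b4 b5 b6 b7 (z - x) = true) →
    ∀ x : ZMod 15, g b1 b2 b3 b4 b5 b6 b7 (x + 5) = g b1 b2 b3 b4 b5 b6 b7 x := by
  decide +kernel

lemma rep (p : ZMod 15 → Bool) (h0 : p 0 = false) (hs : ∀ x, p (-x) = p x) (x : ZMod 15) :
    g (p 1) (p 2) (p 3) (p 4) (p 5) (p 6) (p 7) x = p x := by
  have e : ∀ x : ZMod 15, x = 0 ∨ x = 1 ∨ x = 2 ∨ x = 3 ∨ x = 4 ∨ x = 5 ∨ x = 6 ∨ x = 7 ∨
      x = -7 ∨ x = -6 ∨ x = -5 ∨ x = -4 ∨ x = -3 ∨ x = -2 ∨ x = -1 := by decide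
  rcases e x with h | h | h | h | h | h | h | h | h | h | h | h | h | h | h <;> subst h
  · rw [h0]; rfl
  all_goals first | (rw [hs]; rfl) | rfl

lemma key2 (p : ZMod 15 → Bool) (h0 : p 0 = false) (hs : ∀ x, p (-x) = p x)
    (h1 : ∀ x y, p x = true → p y = true → p (x + y) = false)
    (h2 : ∀ z, z ≠ 0 → p z = false → ∃ x, p x = true ∧ p (z - x) = true) (x : ZMod 15) :
    p (x + 5) = p x := by
  have := key (p 1) (p 2) (p 3) (p 4) (p 5) (p 6) (p 7)
  simp only [rep p h0 hs] at this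
  exact this h1 h2 x

lemma three_le {V : Type} [Fintype V] (G : SimpleGraph V) (S : Finset V) (h : IsMP G S) :
    S.card ≤ mp G := by
  apply le_csSup
  · refine ⟨Fintype.card V, ?_⟩
    rintro m ⟨T, -, rfl⟩
    exact Finset.card_le_univ T
  · exact ⟨S, h, rfl⟩

lemma clique_mp {V : Type} (G : SimpleGraph V) (S : Finset V)
    (h : ∀ a ∈ S, ∀ b ∈ S, a ≠ b → G.Adj a b) : IsMP G S := by
  rintro k f i j l hij hil hjl ⟨hi, hj, hl⟩
  have a1 := pathGraph_adj.1 (f.map_rel_iff.1 (h _ hi _ hj (f.injective.ne hij)))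
  have a2 := pathGraph_adj.1 (f.map_rel_iff.1 (h _ hi _ hl (f.injective.ne hil)))
  have a3 := pathGraph_adj.1 (f.map_rel_iff.1 (h _ hj _ hl (f.injective.ne hjl)))
  omega

lemma twin_mp {V : Type} (G : SimpleGraph V) (S : Finset V)
    (h : ∀ a ∈ S, ∀ b ∈ S, ∀ y, G.Adj a y → G.Adj b y) : IsMP G S := by
  rintro k f i j l hij hil hjl ⟨hi, hj, hl⟩
  have hij' : i.val ≠ j.val := fun e => hij (Fin.ext e)
  have hil' : i.val ≠ l.val := fun e => hil (Fin.ext e)
  have hjl' : j.val ≠ l.val := fun e => hjl (Fin.ext e)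
  have := i.isLt
  have := j.isLt
  have := l.isLt
  obtain ⟨m, hm⟩ : ∃ m : Fin k, (pathGraph k).Adj i m := by
    by_cases hc : i.val + 1 < k
    · exact ⟨⟨i.val + 1, hc⟩, pathGraph_adj.2 (Or.inl rfl)⟩
    · exact ⟨⟨i.val - 1, by omega⟩, pathGraph_adj.2 (Or.inr (by simp only; omega))⟩
  have a0 := f.map_rel_iff.2 hm
  have a1 := pathGraph_adj.1 hm
  have a2 := pathGraph_adj.1 (f.map_rel_iff.1 (h _ hi _ hj _ a0))
  have a3 := pathGraph_adj.1 (f.map_rel_iff.1 (h _ hi _ hl _ a0))
  omega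

lemma common {V : Type} (G : SimpleGraph V) (hd : G.ediam = 2) (u v : V) (hne : u ≠ v)
    (hna : ¬ G.Adj u v) : ∃ w, G.Adj u w ∧ G.Adj w v := by
  have h1 : G.edist u v ≤ 2 := hd ▸ edist_le_ediam
  have h2 : G.edist u v ≠ ⊤ := by
    intro e
    rw [e] at h1
    exact absurd h1 (by decide)
  obtain ⟨p, hp⟩ := exists_walk_of_edist_ne_top h2
  rw [← hp] at h1
  have h3 : p.length ≤ 2 := by exact_mod_cast h1
  cases p with
  | nil => exact absurd rfl hne
  | cons a q =>
    cases q with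
    | nil => exact absurd a hna
    | cons b r =>
      cases r with
      | nil => exact ⟨_, a, b⟩
      | cons c s => simp at h3

theorem result :
    ¬ ∀ n : ℕ, 11 ≤ n → ∃ C : Set (ZMod n), (0 : ZMod n) ∉ C ∧ (∀ x ∈ C, -x ∈ C) ∧
      mp (circulantGraph C) = 2 ∧ (circulantGraph C).ediam = 2 := by
  classical
  intro H
  obtain ⟨C, h0, hs, hmp, hd⟩ := H 15 (by norm_num)
  have adj : ∀ u v : ZMod 15, (circulantGraph C).Adj u v ↔ v - u ∈ C := by
    intro u v
    rw [circulantGraph_adj]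
    constructor
    · rintro ⟨-, h | h⟩
      · simpa using hs _ h
      · exact h
    · intro h
      refine ⟨?_, Or.inr h⟩
      rintro rfl
      exact h0 (by simpa using h)
  have hsf : ∀ x y : ZMod 15, x ∈ C → y ∈ C → x + y ∉ C := by
    intro x y hx hy hxy
    have a1 : (circulantGraph C).Adj 0 x := (adj _ _).2 (by simpa using hx)
    have a2 : (circulantGraph C).Adj 0 (x + y) := (adj _ _).2 (by simpa using hxy)
    have a3 : (circulantGraph C).Adj x (x + y) := (adj _ _).2 (by simpa using hy)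
    have := three_le (circulantGraph C) {0, x, x + y} (clique_mp _ _ (by
      intro a ha b hb hab
      simp only [Finset.mem_insert, Finset.mem_singleton] at ha hb
      rcases ha with rfl | rfl | rfl <;> rcases hb with rfl | rfl | rfl <;>
        first | exact absurd rfl hab | assumption | (apply Adj.symm; assumption)))
    rw [Finset.card_eq_three.2 ⟨0, x, x + y, a1.ne, a2.ne, a3.ne, rfl⟩] at this
    omega
  have hk := key2 (fun x => decide (x ∈ C)) (by simpa using h0)
    (fun x => by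
      simp only [decide_eq_decide]
      exact ⟨fun h => by simpa using hs _ h, hs x⟩)
    (fun x y hx hy => by
      simp only [decide_eq_true_eq, decide_eq_false_iff_not] at hx hy ⊢
      exact hsf x y hx hy)
    (fun z hz hz' => by
      simp only [decide_eq_true_eq, decide_eq_false_iff_not] at hz' ⊢
      obtain ⟨w, h1, h2⟩ := common _ hd 0 z hz.symm (fun h => hz' (by simpa using (adj _ _).1 h))
      exact ⟨w, by simpa using (adj _ _).1 h1, (adj _ _).1 h2⟩)
  simp only [decide_eq_decide] at hk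
  have hk2 : ∀ x d : ZMod 15, (d = 0 ∨ d = 5 ∨ d = 5 + 5) → x ∈ C → x + d ∈ C := by
    rintro x d (rfl | rfl | rfl) hx
    · simpa using hx
    · exact (hk x).2 hx
    · rw [← add_assoc]; exact (hk _).2 ((hk x).2 hx)
  have := three_le (circulantGraph C) {0, 5, 10} (twin_mp _ _ (by
    intro a ha b hb y hy
    rw [adj] at hy ⊢
    have e : y - b = (y - a) + (a - b) := by ring
    rw [e]
    apply hk2 _ _ _ hy
    simp only [Finset.mem_insert, Finset.mem_singleton] at ha hb
    rcases ha with rfl | rfl | rfl <;> rcases hb with rfl | rfl | rfl <;> decide))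
  rw [Finset.card_eq_three.2 ⟨0, 5, 10, by decide, by decide, by decide, rfl⟩] at this
  omega

end Pool.Agent.Results.MP_1f00fa_co.Counter
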